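import Pool.Agent.Lib.MP_667609_co.Factor

/-!
The series `G k n` and `G k n - G (k + 1) (n - 1)` are products of polynomials with coefficients
`0, 1` and one series `V`, whose coefficients are nonnegative except for `k = 3`, `n = 2`, where
the difference vanishes.
-/

namespace Pool.Agent.Lib.MP_667609_co.Variants.CommonFactor

open PowerSeries

/-- The finite product of the formal power series `1 - a q ^ j` over `j < n`. -/
noncomputable def poch (a q : ℚ⟦X⟧) (n : ℕ) : ℚ⟦X⟧ := ∏ j ∈ Finset.range n, (1 - a * q ^ j)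

/-- `G_{k,n}(q) = (q ^ (2 k - 1); q ^ 2)_n / (q; q ^ 2)_{n + 1}`. -/
noncomputable def G (k n : ℕ) : ℚ⟦X⟧ :=
  poch (X ^ (2 * k - 1)) (X ^ 2) n * (poch X (X ^ 2) (n + 1))⁻¹

theorem G_eq (k n : ℕ) : G k n = MP_667609_co.G k n := by
  simp only [G, poch, Pool.Agent.Lib.MP_667609_co.G, pow_add, pow_mul, pow_one]

theorem result (k n : ℕ) (hk : 1 ≤ k) (hn : 1 ≤ n) : ∃ V : ℚ⟦X⟧,
    G k n = (∑ i ∈ Finset.range (2 * k - 1), X ^ i) * V ∧
    (n + 1 ≤ k →
      G k n - G (k + 1) (n - 1) = (∑ i ∈ Finset.Ico (2 * n + 1) (2 * k - 1), X ^ i) * V) ∧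
    ((∀ m, 0 ≤ coeff m V) ↔ ¬(k = 3 ∧ n = 2)) := by
  rw [G_eq, G_eq]
  exact Pool.Agent.Lib.MP_667609_co.factor k n hk hn

end Pool.Agent.Lib.MP_667609_co.Variants.CommonFactor
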